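import Mathlib

/-!
# Metric duality of normed abelian groups: definitions

A *norm* on an abelian group is exactly a `NormedAddCommGroup` structure.  The circle group is
`UnitAddCircle = ℝ/ℤ` whose norm is the distance to the nearest integer.
-/

open Filter Topology Set

namespace Q17.Bidual

universe u

/-- A map `χ : G →+ ℝ/ℤ` which is small on a ball is Lipschitz. -/
lemma nsmul_norm {t : UnitAddCircle} {a : ℝ} (ha : a < 1 / 4) {k : ℕ}
    (h : ∀ j : ℕ, j ≤ k → ‖j • t‖ ≤ a) : (k : ℝ) * ‖t‖ ≤ a := by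
  -- pick a representative `x` with `|x| = ‖t‖`
  obtain ⟨x, hx, hxt⟩ : ∃ x : ℝ, (x : UnitAddCircle) = t ∧ |x| = ‖t‖ := by
    obtain ⟨y, rfl⟩ := QuotientAddGroup.mk_surjective t
    refine ⟨y - round y, ?_, ?_⟩
    · have : ((y - round y : ℝ) : UnitAddCircle) = (y : UnitAddCircle) - ((round y : ℝ) : UnitAddCircle) :=
        rfl
      rw [this]
      have h0 : (((round y : ℤ) : ℝ) : UnitAddCircle) = 0 := by
        have := AddCircle.coe_eq_zero_iff (1 : ℝ) (x := ((round y : ℤ) : ℝ))
        rw [this]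
        exact ⟨round y, by simp⟩
      rw [h0, sub_zero]
    · exact UnitAddCircle.norm_eq.symm
  rcases Nat.eq_zero_or_pos k with hk | hk
  · subst hk
    have := h 0 le_rfl
    simp at this ⊢
    exact this
  have key : ∀ j : ℕ, j ≤ k → (j : ℝ) * |x| ≤ a := by
    intro j
    induction j with
    | zero =>
      intro _
      have := h 0 (Nat.zero_le _)
      simpa using this
    | succ j ih =>
      intro hj
      have h1 := ih (Nat.le_of_succ_le hj)
      have h2 : |x| ≤ a := by
        rw [hxt]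
        have := h 1 hk
        simpa using this
      have h3 : ‖(((j + 1 : ℕ) : ℝ) * x : ℝ)‖ ≤ 1 / 2 := by
        rw [Real.norm_eq_abs, abs_mul, Nat.abs_cast]
        push_cast
        nlinarith
      have h4 : ‖((((j + 1 : ℕ) : ℝ) * x : ℝ) : UnitAddCircle)‖ = |((j + 1 : ℕ) : ℝ) * x| := by
        rw [AddCircle.norm_coe_eq_abs_iff (p := (1 : ℝ)) one_ne_zero]
        rw [Real.norm_eq_abs] at h3
        simpa using h3
      have h5 : ((((j + 1 : ℕ) : ℝ) * x : ℝ) : UnitAddCircle) = (j + 1 : ℕ) • t := by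
        rw [← hx, ← nsmul_eq_mul]
        rfl
      rw [h5, abs_mul, Nat.abs_cast] at h4
      rw [← h4]
      exact h (j + 1) hj
  rw [← hxt]
  exact key k le_rfl

lemma lipschitz_of_small {G : Type*} [NormedAddCommGroup G] (χ : G →+ UnitAddCircle) {R a : ℝ}
    (hR : 0 < R) (ha : a < 1 / 4) (h : ∀ x : G, ‖x‖ ≤ R → ‖χ x‖ ≤ a) (x : G) :
    ‖χ x‖ ≤ 1 / (2 * R) * ‖x‖ := by
  by_cases hx : ‖x‖ ≤ R
  · rcases eq_or_ne x 0 with rfl | hx0
    · simp
    have hpos : 0 < ‖x‖ := norm_pos_iff.2 hx0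
    set k := ⌊R / ‖x‖⌋₊ with hk
    have hle : (k : ℝ) ≤ R / ‖x‖ := Nat.floor_le (by positivity)
    have hlt : R / ‖x‖ < k + 1 := Nat.lt_floor_add_one _
    have h1 : 1 ≤ R / ‖x‖ := by
      rw [le_div_iff₀ hpos]
      simpa using hx
    have hk1 : 1 ≤ k := by
      rw [hk]
      exact Nat.le_floor (by simpa using h1)
    have hk1' : (1 : ℝ) ≤ k := by exact_mod_cast hk1
    have h2 : (k : ℝ) * ‖χ x‖ ≤ a := by
      refine nsmul_norm ha fun j hj => ?_
      rw [← map_nsmul]
      refine h _ ?_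
      calc ‖j • x‖ ≤ j * ‖x‖ := norm_nsmul_le
        _ ≤ k * ‖x‖ := by
            have : (j : ℝ) ≤ k := by exact_mod_cast hj
            gcongr
        _ ≤ R / ‖x‖ * ‖x‖ := by gcongr
        _ = R := by field_simp
    have h3 : R / ‖x‖ ≤ 2 * k := by linarith
    have h4 : R ≤ 2 * k * ‖x‖ := by
      rwa [div_le_iff₀ hpos] at h3
    have hn : 0 ≤ ‖χ x‖ := norm_nonneg _
    rw [div_mul_eq_mul_div, one_mul, le_div_iff₀ (by positivity)]
    -- ‖χ x‖ * (2 R) ≤ ‖x‖
    nlinarith [mul_le_mul_of_nonneg_left h4 hn, mul_nonneg hn hpos.le]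
  · push Not at hx
    have h1 : ‖χ x‖ ≤ 1 / 2 := by
      have := AddCircle.norm_le_half_period (1 : ℝ) (x := χ x) one_ne_zero
      simpa using this
    refine h1.trans ?_
    rw [div_mul_eq_mul_div, one_mul, le_div_iff₀ (by positivity)]
    linarith

lemma exists_lipschitz {G : Type*} [NormedAddCommGroup G] (χ : G →+ UnitAddCircle)
    (hχ : Continuous χ) : ∃ M : ℝ, 0 < M ∧ ∀ x, ‖χ x‖ ≤ M * ‖x‖ := by
  have h0 : Tendsto χ (𝓝 0) (𝓝 0) := by
    have := hχ.tendsto 0
    rwa [map_zero] at this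
  have h1 : ∀ᶠ x in 𝓝 (0 : G), ‖χ x‖ < 1 / 5 := by
    have : ∀ᶠ z in 𝓝 (0 : UnitAddCircle), ‖z‖ < 1 / 5 := by
      have := Metric.ball_mem_nhds (0 : UnitAddCircle) (show (0 : ℝ) < 1 / 5 by norm_num)
      filter_upwards [this] with z hz
      simpa using hz
    exact h0.eventually this
  rw [Metric.eventually_nhds_iff] at h1
  obtain ⟨ε, hε, h⟩ := h1
  refine ⟨1 / (2 * (ε / 2)), by positivity, fun x => ?_⟩
  refine lipschitz_of_small χ (R := ε / 2) (a := 1 / 5) (by positivity) (by norm_num) ?_ x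
  intro x hx
  refine (h ?_).le
  rw [dist_zero_right]
  linarith

/-- The metric dual `G'` of a normed abelian group `G`: the group of all continuous homomorphisms
from `G` to the circle group `ℝ/ℤ`. -/
def MDual (G : Type u) [NormedAddCommGroup G] : Type u :=
  {χ : G →+ UnitAddCircle // Continuous χ}

namespace MDual

variable {G : Type u} [NormedAddCommGroup G]

/-- The subgroup of continuous homomorphisms. -/
def subgroup (G : Type u) [NormedAddCommGroup G] : AddSubgroup (G →+ UnitAddCircle) where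
  carrier := {χ | Continuous χ}
  add_mem' := fun {a b} ha hb => by
    change Continuous (fun x => a x + b x)
    exact Continuous.add ha hb
  zero_mem' := by
    change Continuous (fun _ : G => (0 : UnitAddCircle))
    exact continuous_const
  neg_mem' := fun {a} ha => by
    change Continuous (fun x => - a x)
    exact Continuous.neg ha

instance : AddCommGroup (MDual G) := inferInstanceAs (AddCommGroup (subgroup G))

instance : FunLike (MDual G) G UnitAddCircle where
  coe χ := χ.1
  coe_injective := by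
    intro a b h
    apply Subtype.ext
    exact DFunLike.coe_injective h

instance : AddMonoidHomClass (MDual G) G UnitAddCircle where
  map_add χ := χ.1.map_add
  map_zero χ := χ.1.map_zero

lemma continuous (χ : MDual G) : Continuous χ := χ.2

@[simp] lemma add_apply (χ ψ : MDual G) (x : G) : (χ + ψ) x = χ x + ψ x := rfl
@[simp] lemma sub_apply (χ ψ : MDual G) (x : G) : (χ - ψ) x = χ x - ψ x := rfl
@[simp] lemma neg_apply (χ : MDual G) (x : G) : (- χ) x = - χ x := rfl
@[simp] lemma zero_apply (x : G) : (0 : MDual G) x = 0 := rfl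

/-- The dual norm: the infimum of all `M > 0` such that `‖χ x‖ ≤ M ‖x‖` for all `x`. -/
noncomputable instance : Norm (MDual G) where
  norm χ := sInf {M : ℝ | 0 < M ∧ ∀ x : G, ‖χ x‖ ≤ M * ‖x‖}

lemma norm_def (χ : MDual G) : ‖χ‖ = sInf {M : ℝ | 0 < M ∧ ∀ x : G, ‖χ x‖ ≤ M * ‖x‖} := rfl

lemma bddBelow (χ : MDual G) : BddBelow {M : ℝ | 0 < M ∧ ∀ x : G, ‖χ x‖ ≤ M * ‖x‖} :=
  ⟨0, fun _ hM => hM.1.le⟩

lemma nonempty (χ : MDual G) : {M : ℝ | 0 < M ∧ ∀ x : G, ‖χ x‖ ≤ M * ‖x‖}.Nonempty := by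
  obtain ⟨M, hM, h⟩ := exists_lipschitz χ.1 χ.2
  exact ⟨M, hM, h⟩

lemma norm_nonneg' (χ : MDual G) : 0 ≤ ‖χ‖ :=
  le_csInf χ.nonempty fun _ hM => hM.1.le

lemma norm_apply_le (χ : MDual G) (x : G) : ‖χ x‖ ≤ ‖χ‖ * ‖x‖ := by
  rcases eq_or_ne x 0 with rfl | hx
  · simp
  have hpos : 0 < ‖x‖ := norm_pos_iff.2 hx
  rw [← div_le_iff₀ hpos]
  refine le_csInf χ.nonempty fun M hM => ?_
  rw [div_le_iff₀ hpos]
  exact hM.2 x

lemma norm_le_of {χ : MDual G} {M : ℝ} (hM : 0 ≤ M) (h : ∀ x, ‖χ x‖ ≤ M * ‖x‖) : ‖χ‖ ≤ M := by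
  refine le_of_forall_pos_le_add fun ε hε => ?_
  refine csInf_le χ.bddBelow ⟨by linarith, fun x => ?_⟩
  refine (h x).trans ?_
  gcongr
  linarith

lemma exists_of_lt {χ : MDual G} {M : ℝ} (hM0 : 0 ≤ M) (hM : M < ‖χ‖) :
    ∃ x, M * ‖x‖ < ‖χ x‖ := by
  by_contra h
  push Not at h
  exact absurd (norm_le_of hM0 h) (not_le.2 hM)

noncomputable instance : NormedAddCommGroup (MDual G) :=
  AddGroupNorm.toNormedAddCommGroup
    { toFun := fun χ => ‖χ‖
      map_zero' := by
        refine le_antisymm ?_ (norm_nonneg' _)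
        exact norm_le_of le_rfl (by simp)
      add_le' := by
        intro χ ψ
        refine norm_le_of (add_nonneg (norm_nonneg' _) (norm_nonneg' _)) fun x => ?_
        rw [add_apply, add_mul]
        exact (norm_add_le _ _).trans (add_le_add (norm_apply_le _ _) (norm_apply_le _ _))
      neg' := by
        intro χ
        simp only [norm_def, neg_apply, norm_neg]
      eq_zero_of_map_eq_zero' := by
        intro χ h
        refine DFunLike.ext _ _ fun x => ?_
        have h1 := norm_apply_le χ x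
        have h' : ‖χ‖ = 0 := h
        rw [h', zero_mul] at h1
        simpa using le_antisymm h1 (norm_nonneg _) }

end MDual

/-- The topological weight: the least cardinality of a base of the topology. -/
noncomputable def weight (X : Type u) [TopologicalSpace X] : Cardinal.{u} :=
  sInf {c : Cardinal.{u} | ∃ B : Set (Set X), TopologicalSpace.IsTopologicalBasis B ∧
    Cardinal.mk B = c}

end Q17.Bidual
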