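import Pool.Agent.Q17.Bidual.Defs

/-!
# The weight of the metric bidual is at least the weight of the metric dual
-/

open Filter Topology Set Cardinal

namespace Q17.Bidual

universe u

/-! ### Weight -/

section Weight

variable {X : Type u} [TopologicalSpace X]

lemma weight_spec (X : Type u) [TopologicalSpace X] :
    ∃ B : Set (Set X), TopologicalSpace.IsTopologicalBasis B ∧ #B = weight X := by
  have : weight X ∈ {c : Cardinal.{u} | ∃ B : Set (Set X), TopologicalSpace.IsTopologicalBasis B ∧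
    #B = c} := csInf_mem ⟨_, _, TopologicalSpace.isTopologicalBasis_opens, rfl⟩
  exact this

lemma weight_le {B : Set (Set X)} (hB : TopologicalSpace.IsTopologicalBasis B) :
    weight X ≤ #B := csInf_le' ⟨B, hB, rfl⟩

lemma weight_le_of_discrete [DiscreteTopology X] : weight X ≤ #X := by
  have hB : TopologicalSpace.IsTopologicalBasis {s : Set X | ∃ x : X, s = {x}} := by
    refine TopologicalSpace.isTopologicalBasis_of_isOpen_of_nhds (fun _ _ => isOpen_discrete _) ?_
    intro a u ha _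
    exact ⟨{a}, ⟨a, rfl⟩, rfl, by simpa using ha⟩
  refine (weight_le hB).trans ?_
  have : {s : Set X | ∃ x : X, s = {x}} = Set.range (fun x : X => ({x} : Set X)) := by
    ext s
    constructor
    · rintro ⟨x, rfl⟩
      exact ⟨x, rfl⟩
    · rintro ⟨x, rfl⟩
      exact ⟨x, rfl⟩
  rw [this]
  exact Cardinal.mk_range_le

/-- A Hausdorff space with a finite base is finite, with at most as many points. -/
lemma mk_le_of_finite_base [T2Space X] {B : Set (Set X)}
    (hB : TopologicalSpace.IsTopologicalBasis B) (hfin : B.Finite) : #X ≤ #B := by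
  have key : ∀ x : X, ({x} : Set X) ∈ B := by
    intro x
    have h1 : IsOpen (⋂₀ {U ∈ B | x ∈ U}) := by
      refine Set.Finite.isOpen_sInter (hfin.subset (fun U hU => hU.1)) ?_
      intro U hU
      exact hB.isOpen hU.1
    have h2 : (⋂₀ {U ∈ B | x ∈ U}) = {x} := by
      ext y
      constructor
      · intro hy
        by_contra hne
        have hne' : x ≠ y := fun h => hne (by rw [h]; rfl)
        obtain ⟨U, hU, hxU, hUV⟩ := hB.exists_subset_of_mem_open (show x ∈ ({y} : Set X)ᶜ from hne')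
          (isClosed_singleton.isOpen_compl)
        exact hUV (hy U ⟨hU, hxU⟩) rfl
      · rintro rfl U hU
        exact hU.2
    rw [h2] at h1
    obtain ⟨U, hU, hxU, hUV⟩ := hB.exists_subset_of_mem_open (show x ∈ ({x} : Set X) from rfl) h1
    have : U = {x} := by
      refine Set.Subset.antisymm hUV ?_
      rintro y rfl
      exact hxU
    rwa [← this]
  refine Cardinal.mk_le_of_injective (f := fun x : X => (⟨{x}, key x⟩ : B)) ?_
  intro x y hxy
  have := congrArg Subtype.val hxy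
  simpa using this

end Weight

lemma weight_le_of_denseRange {X : Type u} [PseudoMetricSpace X] {J : Type u} (f : J → X)
    (hf : DenseRange f) : weight X ≤ max #J ℵ₀ := by
  have hB : TopologicalSpace.IsTopologicalBasis
      (Set.range (fun p : J × ℕ => Metric.ball (f p.1) (1 / ((p.2 : ℝ) + 1)))) := by
    refine TopologicalSpace.isTopologicalBasis_of_isOpen_of_nhds ?_ ?_
    · rintro _ ⟨p, rfl⟩
      exact Metric.isOpen_ball
    · intro a u ha hu
      obtain ⟨ε, hε, hball⟩ := Metric.isOpen_iff.1 hu a ha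
      obtain ⟨n, hn⟩ := exists_nat_one_div_lt (show (0 : ℝ) < ε / 2 by positivity)
      obtain ⟨j, hj⟩ := hf.exists_dist_lt a (show (0 : ℝ) < 1 / ((n : ℝ) + 1) by positivity)
      refine ⟨_, ⟨(j, n), rfl⟩, hj, ?_⟩
      intro y hy
      apply hball
      rw [Metric.mem_ball] at hy ⊢
      calc dist y a ≤ dist y (f j) + dist a (f j) := dist_triangle_right _ _ _
        _ < 1 / ((n : ℝ) + 1) + 1 / ((n : ℝ) + 1) := add_lt_add hy hj
        _ < ε := by linarith
  refine (weight_le hB).trans (Cardinal.mk_range_le.trans ?_)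
  rw [Cardinal.mk_prod, Cardinal.lift_uzero, Cardinal.mk_nat, Cardinal.lift_aleph0]
  refine (Cardinal.mul_le_max _ _).trans ?_
  simp

/-! ### A small family of characters separating the bidual -/

variable {G : Type u} [NormedAddCommGroup G]

lemma exists_sep {I : Type u} (s : I → MDual (MDual G)) (hs : DenseRange s) :
    ∃ χ : I → MDual G, ∀ b : MDual (MDual G), (∀ i, b (χ i) = 0) → b = 0 := by
  have h : ∀ i, ∃ χ : MDual G, s i ≠ 0 → ‖s i‖ / 2 * ‖χ‖ < ‖s i χ‖ := by
    intro i
    by_cases hi : s i = 0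
    · exact ⟨0, fun h => absurd hi h⟩
    · have hpos : 0 < ‖s i‖ := norm_pos_iff.2 hi
      obtain ⟨χ, hχ⟩ := MDual.exists_of_lt (χ := s i) (M := ‖s i‖ / 2) (by positivity)
        (half_lt_self hpos)
      exact ⟨χ, fun _ => hχ⟩
  choose χ hχ using h
  refine ⟨χ, fun b hb => ?_⟩
  by_contra hne
  have hpos : 0 < ‖b‖ := norm_pos_iff.2 hne
  obtain ⟨i, hi⟩ := hs.exists_dist_lt b (show 0 < ‖b‖ / 4 by positivity)
  rw [dist_eq_norm] at hi
  have h1 : 3 / 4 * ‖b‖ < ‖s i‖ := by
    have : ‖b‖ ≤ ‖b - s i‖ + ‖s i‖ := by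
      calc ‖b‖ = ‖(b - s i) + s i‖ := by rw [sub_add_cancel]
        _ ≤ _ := norm_add_le _ _
    linarith
  have h2 : s i ≠ 0 := by
    intro h0
    rw [h0, norm_zero] at h1
    linarith
  have h3 := hχ i h2
  have h4 : ‖s i (χ i)‖ ≤ ‖b - s i‖ * ‖χ i‖ := by
    have : s i (χ i) = - ((b - s i) (χ i)) := by
      rw [MDual.sub_apply, hb i, zero_sub, neg_neg]
    rw [this, norm_neg]
    exact MDual.norm_apply_le _ _
  have h5 : 0 ≤ ‖χ i‖ := norm_nonneg _
  nlinarith [mul_le_mul_of_nonneg_right hi.le h5, mul_le_mul_of_nonneg_right h1.le h5]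

/-- The limit along an ultrafilter of evaluations at bounded elements is in the bidual. -/
lemma exists_limit (U : Ultrafilter G) {r : ℝ} (hr : ∀ᶠ x in (U : Filter G), ‖x‖ ≤ r) :
    ∃ b : MDual (MDual G), ∀ χ : MDual G, Tendsto (fun x => χ x) U (𝓝 (b χ)) := by
  have h0 : ∀ χ : MDual G, Tendsto (fun x => χ x) U (𝓝 (U.map (fun x => χ x)).lim) := by
    intro χ
    have := Ultrafilter.le_nhds_lim (U.map (fun x => χ x))
    exact this
  have hr0 : 0 ≤ r := by
    obtain ⟨x, hx⟩ := hr.exists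
    exact (norm_nonneg _).trans hx
  set b : MDual G → UnitAddCircle := fun χ => (U.map (fun x => χ x)).lim with hb
  have hadd : ∀ χ ψ, b (χ + ψ) = b χ + b ψ := by
    intro χ ψ
    refine tendsto_nhds_unique (h0 (χ + ψ)) ?_
    exact (h0 χ).add (h0 ψ)
  have hnorm : ∀ χ, ‖b χ‖ ≤ r * ‖χ‖ := by
    intro χ
    have h1 : Tendsto (fun x => ‖χ x‖) U (𝓝 ‖b χ‖) := (h0 χ).norm
    refine le_of_tendsto h1 ?_
    filter_upwards [hr] with x hx
    refine (MDual.norm_apply_le χ x).trans ?_
    rw [mul_comm]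
    gcongr
  set B : MDual G →+ UnitAddCircle := AddMonoidHom.mk' b hadd with hB
  have hcont : Continuous B := by
    have : ∀ x, ‖B x‖ ≤ r * ‖x‖ := hnorm
    exact AddMonoidHomClass.continuous_of_bound B r this
  exact ⟨⟨B, hcont⟩, h0⟩

lemma uniform_control {I : Type u} (χ : I → MDual G)
    (hχ : ∀ b : MDual (MDual G), (∀ i, b (χ i) = 0) → b = 0) (ψ : MDual G) (r : ℝ) {ε : ℝ}
    (hε : 0 < ε) :
    ∃ F : Finset I, ∃ n : ℕ, ∀ h : G, ‖h‖ ≤ r → (∀ i ∈ F, ‖χ i h‖ < 1 / ((n : ℝ) + 1)) →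
      ‖ψ h‖ < ε := by
  classical
  by_contra hcon
  push Not at hcon
  choose x hxr hxF hxψ using hcon
  -- the net `(F, n) ↦ x F n`
  obtain ⟨U, hU⟩ := Ultrafilter.exists_le (Filter.map (fun p : Finset I × ℕ => x p.1 p.2) atTop)
  have hr : ∀ᶠ y in (U : Filter G), ‖y‖ ≤ r := by
    apply hU
    rw [Filter.mem_map]
    filter_upwards with p
    exact hxr p.1 p.2
  have hψ : ∀ᶠ y in (U : Filter G), ε ≤ ‖ψ y‖ := by
    apply hU
    rw [Filter.mem_map]
    filter_upwards with p
    exact hxψ p.1 p.2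
  obtain ⟨b, hb⟩ := exists_limit U hr
  have hb0 : b = 0 := by
    apply hχ
    intro i
    refine tendsto_nhds_unique (hb (χ i)) ?_
    refine Tendsto.mono_left ?_ hU
    rw [tendsto_map'_iff]
    rw [tendsto_zero_iff_norm_tendsto_zero]
    have h1 : Tendsto (fun p : Finset I × ℕ => 1 / ((p.2 : ℝ) + 1)) atTop (𝓝 0) := by
      have h2 : Tendsto (fun p : Finset I × ℕ => p.2) atTop atTop := by
        rw [← prod_atTop_atTop_eq]
        exact tendsto_snd
      exact tendsto_one_div_add_atTop_nhds_zero_nat.comp h2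
    refine squeeze_zero' (Eventually.of_forall fun _ => norm_nonneg _) ?_ h1
    filter_upwards [eventually_ge_atTop (({i} : Finset I), 0)] with p hp
    have : i ∈ p.1 := by
      have := hp.1
      exact this (Finset.mem_singleton_self i)
    exact (hxF p.1 p.2 i this).le
  have h3 := hb ψ
  rw [hb0, MDual.zero_apply] at h3
  have h4 : Tendsto (fun x => ‖ψ x‖) U (𝓝 0) := by
    have := h3.norm
    rwa [norm_zero] at this
  have h5 : ε ≤ 0 := ge_of_tendsto h4 hψ
  linarith

/-- Finite partitions of the circle of small mesh. -/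
lemma exists_quant (δ : ℝ) (hδ : 0 < δ) : ∃ (k : ℕ) (q : UnitAddCircle → Fin k),
    ∀ s t, q s = q t → ‖s - t‖ < δ := by
  have hc : TotallyBounded (univ : Set UnitAddCircle) := isCompact_univ.totallyBounded
  rw [Metric.totallyBounded_iff] at hc
  obtain ⟨T, hT, hcov⟩ := hc (δ / 2) (by positivity)
  have hex : ∀ s : UnitAddCircle, ∃ y : T, dist s y < δ / 2 := by
    intro s
    have := hcov (mem_univ s)
    simp only [mem_iUnion, Metric.mem_ball] at this
    obtain ⟨y, hy, h⟩ := this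
    exact ⟨⟨y, hy⟩, h⟩
  choose q hq using hex
  have : Finite T := hT
  obtain ⟨k, ⟨e⟩⟩ := Finite.exists_equiv_fin T
  refine ⟨k, fun s => e (q s), fun s t h => ?_⟩
  have h' : q s = q t := e.injective h
  rw [← dist_eq_norm]
  calc dist s t ≤ dist s (q s) + dist t (q s) := dist_triangle_right _ _ _
    _ < δ / 2 + δ / 2 := by
      refine add_lt_add (hq s) ?_
      rw [h']
      exact hq t
    _ = δ := by ring

/-- The type of codes. -/
abbrev Code (I : Type u) (k : ℕ → ℕ) (m : ℕ) : Type u :=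
  Σ p : ℕ × Finset I × ℕ, ((p.2.1 → Fin (k p.2.2)) → Fin m)

lemma mk_code (I : Type u) (k : ℕ → ℕ) (m : ℕ) : #(Code I k m) ≤ max #I ℵ₀ := by
  classical
  rw [Code, Cardinal.mk_sigma]
  have h1 : (Cardinal.sum fun p : ℕ × Finset I × ℕ => #((p.2.1 → Fin (k p.2.2)) → Fin m)) ≤
      Cardinal.sum fun _ : ℕ × Finset I × ℕ => (ℵ₀ : Cardinal.{u}) := by
    refine Cardinal.sum_le_sum _ _ fun p => ?_
    exact Cardinal.mk_le_aleph0
  refine h1.trans ?_
  have hF : #(Finset I) ≤ max #I ℵ₀ := by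
    rcases finite_or_infinite I with h | h
    · exact (Cardinal.mk_le_aleph0).trans (le_max_right _ _)
    · rw [Cardinal.mk_finset_of_infinite]
      exact le_max_left _ _
  have hinf : ℵ₀ ≤ max #I ℵ₀ := le_max_right _ _
  rw [Cardinal.sum_const]
  simp only [Cardinal.lift_id, Cardinal.lift_uzero, Cardinal.mk_prod, Cardinal.mk_nat,
    Cardinal.lift_aleph0]
  calc ℵ₀ * (#(Finset I) * ℵ₀) * ℵ₀ ≤ max #I ℵ₀ * (max #I ℵ₀ * max #I ℵ₀) * max #I ℵ₀ := by
        gcongr
    _ = max #I ℵ₀ := by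
        simp only [Cardinal.mul_eq_self hinf]

/-- A dense family in `G'` indexed by codes. -/
lemma exists_dense {I : Type u} (χ : I → MDual G)
    (hχ : ∀ b : MDual (MDual G), (∀ i, b (χ i) = 0) → b = 0) :
    ∃ (J : Type u) (f : J → MDual G), DenseRange f ∧ #J ≤ max #I ℵ₀ := by
  classical
  -- partitions
  have hq : ∀ n : ℕ, ∃ (k : ℕ) (q : UnitAddCircle → Fin k),
      ∀ s t, q s = q t → ‖s - t‖ < 1 / ((n : ℝ) + 1) := fun n => exists_quant _ (by positivity)
  choose k q hq using hq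
  obtain ⟨m, q₀, hq₀⟩ := exists_quant (1 / 20) (by norm_num)
  -- a representative of each cell of `q₀`
  have hrep : ∃ ρ : Fin m → UnitAddCircle, ∀ s, ‖s - ρ (q₀ s)‖ < 1 / 20 := by
    refine ⟨fun c => if h : ∃ s, q₀ s = c then h.choose else 0, fun s => ?_⟩
    have h : ∃ t, q₀ t = q₀ s := ⟨s, rfl⟩
    beta_reduce
    rw [dif_pos h]
    exact hq₀ _ _ h.choose_spec.symm
  obtain ⟨ρ, hρ⟩ := hrep
  -- `R c ψ`: the character `ψ` is described by the code `c`
  let R : Code I k m → MDual G → Prop := fun c ψ => ∀ x : G, ‖x‖ ≤ (c.1.1 : ℝ) →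
    ‖ψ x - ρ (c.2 fun i => q c.1.2.2 (χ i x))‖ < 2 / 20
  have hR : ∀ (ψ : MDual G) (n : ℕ), ∃ c : Code I k m, c.1.1 = n ∧ R c ψ := by
    intro ψ n
    obtain ⟨F, j, hF⟩ := uniform_control χ hχ ψ (2 * n) (show (0 : ℝ) < 1 / 20 by norm_num)
    let g : (F → Fin (k j)) → Fin m := fun c =>
      if h : ∃ x : G, ‖x‖ ≤ (n : ℝ) ∧ (fun i : F => q j (χ i x)) = c then q₀ (ψ h.choose)
      else q₀ 0
    refine ⟨⟨(n, F, j), g⟩, rfl, ?_⟩
    intro x hx
    change ‖x‖ ≤ (n : ℝ) at hx
    change ‖ψ x - ρ (g fun i : F => q j (χ i x))‖ < 2 / 20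
    have h : ∃ y : G, ‖y‖ ≤ (n : ℝ) ∧ (fun i : F => q j (χ i y)) = (fun i : F => q j (χ i x)) :=
      ⟨x, hx, rfl⟩
    have hg : g (fun i : F => q j (χ i x)) = q₀ (ψ h.choose) := dif_pos h
    obtain ⟨hy1, hy2⟩ := h.choose_spec
    rw [hg]
    set y := h.choose
    have h1 : ‖ψ (x - y)‖ < 1 / 20 := by
      apply hF
      · calc ‖x - y‖ ≤ ‖x‖ + ‖y‖ := norm_sub_le _ _
          _ ≤ n + n := add_le_add hx hy1
          _ = 2 * n := by ring
      · intro i hi
        rw [map_sub]
        apply hq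
        exact (congrFun hy2 ⟨i, hi⟩).symm
    rw [map_sub] at h1
    calc ‖ψ x - ρ (q₀ (ψ y))‖ = ‖(ψ x - ψ y) + (ψ y - ρ (q₀ (ψ y)))‖ := by
          rw [sub_add_sub_cancel]
      _ ≤ ‖ψ x - ψ y‖ + ‖ψ y - ρ (q₀ (ψ y))‖ := norm_add_le _ _
      _ < 1 / 20 + 1 / 20 := add_lt_add h1 (hρ _)
      _ = 2 / 20 := by norm_num
  let f : Code I k m → MDual G := fun c => if h : ∃ ψ, R c ψ then h.choose else 0
  have hf : ∀ c, (∃ ψ, R c ψ) → R c (f c) := by
    intro c h
    have : f c = h.choose := dif_pos h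
    rw [this]
    exact h.choose_spec
  refine ⟨Code I k m, f, ?_, mk_code I k m⟩
  rw [Metric.denseRange_iff]
  intro ψ ε hε
  obtain ⟨n, hn⟩ := exists_nat_one_div_lt hε
  obtain ⟨c, hc1, hc2⟩ := hR ψ (n + 1)
  refine ⟨c, ?_⟩
  have hfc := hf c ⟨ψ, hc2⟩
  rw [dist_eq_norm]
  refine lt_of_le_of_lt (MDual.norm_le_of (M := 1 / (2 * ((n : ℝ) + 1))) (by positivity) ?_)
    (lt_of_le_of_lt ?_ hn)
  · refine lipschitz_of_small (ψ - f c).1 (R := (n : ℝ) + 1) (a := 4 / 20) (by positivity)
      (by norm_num) ?_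
    intro x hx
    have hx' : ‖x‖ ≤ (c.1.1 : ℝ) := by
      rw [hc1]
      exact_mod_cast hx
    have h1 := hc2 x hx'
    have h2 := hfc x hx'
    change ‖ψ x - f c x‖ ≤ 4 / 20
    set z := ρ (c.2 fun i => q c.1.2.2 (χ i x))
    calc ‖ψ x - f c x‖ = ‖(ψ x - z) - (f c x - z)‖ := by
          rw [sub_sub_sub_cancel_right]
      _ ≤ ‖ψ x - z‖ + ‖f c x - z‖ := norm_sub_le _ _
      _ ≤ 2 / 20 + 2 / 20 := add_le_add h1.le h2.le
      _ = 4 / 20 := by norm_num
  · apply one_div_le_one_div_of_le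
    · positivity
    · have : (0 : ℝ) ≤ n := Nat.cast_nonneg n
      linarith

/-! ### The finite case -/

/-- Evaluation at a point. -/
noncomputable def ev (x : G) : MDual (MDual G) :=
  ⟨AddMonoidHom.mk' (fun χ : MDual G => χ x) (fun _ _ => rfl), by
    refine AddMonoidHomClass.continuous_of_bound
      (AddMonoidHom.mk' (fun χ : MDual G => χ x) (fun _ _ => rfl)) ‖x‖ ?_
    intro χ
    rw [mul_comm]
    exact MDual.norm_apply_le χ x⟩

lemma ev_apply (x : G) (χ : MDual G) : ev x χ = χ x := rfl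

/-- The additive character of the bidual given by an element of the dual. -/
noncomputable def toChar (χ : MDual G) : AddChar (MDual (MDual G)) ℂ where
  toFun b := ((AddCircle.toCircle (b χ) : Circle) : ℂ)
  map_zero_eq_one' := by
    rw [MDual.zero_apply, AddCircle.toCircle_zero]
    rfl
  map_add_eq_mul' := by
    intro a b
    rw [MDual.add_apply, AddCircle.toCircle_add]
    rfl

lemma toChar_injective : Function.Injective (toChar (G := G)) := by
  intro χ ψ h
  refine DFunLike.ext _ _ fun x => ?_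
  have h1 := DFunLike.congr_fun h (ev x)
  have h2 : AddCircle.toCircle (χ x) = AddCircle.toCircle (ψ x) := Circle.ext h1
  exact AddCircle.injective_toCircle one_ne_zero h2

lemma finite_case [Finite (MDual (MDual G))] : weight (MDual G) ≤ #(MDual (MDual G)) := by
  classical
  have := Fintype.ofFinite (MDual (MDual G))
  have h1 : #(MDual G) ≤ #(AddChar (MDual (MDual G)) ℂ) := by
    have := Cardinal.mk_le_of_injective (toChar_injective (G := G))
    exact this
  have h2 : #(AddChar (MDual (MDual G)) ℂ) = #(MDual (MDual G)) := by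
    rw [Cardinal.mk_fintype, Cardinal.mk_fintype, AddChar.card_eq]
  have h3 : Finite (MDual G) := Finite.of_injective _ (toChar_injective (G := G))
  have h4 : DiscreteTopology (MDual G) := inferInstance
  exact (weight_le_of_discrete).trans (h1.trans h2.le)

/-- **Main theorem.** -/
theorem main (G : Type u) [NormedAddCommGroup G] :
    weight (MDual G) ≤ weight (MDual (MDual G)) := by
  obtain ⟨B, hB, hBw⟩ := weight_spec (MDual (MDual G))
  rw [← hBw]
  rcases B.finite_or_infinite with hfin | hinf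
  · have h1 := mk_le_of_finite_base hB hfin
    have h2 : #(MDual (MDual G)) < ℵ₀ := lt_of_le_of_lt h1 (Cardinal.lt_aleph0_iff_set_finite.2 hfin)
    have h3 : Finite (MDual (MDual G)) := Cardinal.lt_aleph0_iff_finite.1 h2
    exact finite_case.trans h1
  · classical
    let s : B → MDual (MDual G) := fun U => if h : (U : Set (MDual (MDual G))).Nonempty
      then h.some else 0
    have hs : DenseRange s := by
      rw [DenseRange, hB.dense_iff]
      intro U hU hne
      refine ⟨s ⟨U, hU⟩, ?_, ⟨_, rfl⟩⟩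
      have : s ⟨U, hU⟩ = hne.some := dif_pos hne
      rw [this]
      exact hne.some_mem
    obtain ⟨χ, hχ⟩ := exists_sep s hs
    obtain ⟨J, f, hf, hJ⟩ := exists_dense χ hχ
    have h1 := weight_le_of_denseRange f hf
    have h2 : ℵ₀ ≤ #B := by
      rw [Cardinal.infinite_iff.symm]
      exact hinf.to_subtype
    rw [max_eq_left h2] at hJ
    exact h1.trans (max_le hJ h2)

end Q17.Bidual
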